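import Mathlib

set_option autoImplicit false
open scoped InnerProductSpace
open Filter

namespace Pool.Agent.Results.MP_bd7f44_an.Curve

/-- Bregman distance of a real-valued differentiable function -/
noncomputable def D {n : ℕ} (f : EuclideanSpace ℝ (Fin n) → ℝ) (x y : EuclideanSpace ℝ (Fin n)) :
    ℝ := f x - f y - ⟪gradient f y, x - y⟫_ℝ

abbrev E2 := EuclideanSpace ℝ (Fin 2)

noncomputable def f (x : E2) : ℝ := x 0 ^ 2 + Real.exp (x 1)

def C : Set E2 := {x | 0 < x 0 ∧ x 1 = Real.log (x 0)}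

lemma hasF (y : E2) : HasFDerivAt f
    ((2 * y 0) • (EuclideanSpace.proj 0 : E2 →L[ℝ] ℝ) +
      Real.exp (y 1) • (EuclideanSpace.proj 1 : E2 →L[ℝ] ℝ)) y := by
  have h0 := (EuclideanSpace.proj (𝕜 := ℝ) (0 : Fin 2)).hasFDerivAt (x := y)
  have h1 := (EuclideanSpace.proj (𝕜 := ℝ) (1 : Fin 2)).hasFDerivAt (x := y)
  refine ((h0.pow 2).add h1.exp).congr_fderiv ?_
  simp

lemma D_eq (x y : E2) : D f x y =
    f x - f y - (2 * y 0 * (x 0 - y 0) + Real.exp (y 1) * (x 1 - y 1)) := by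
  rw [D, gradient, InnerProductSpace.toDual_symm_apply, (hasF y).fderiv]
  simp

lemma f_strict : StrictConvexOn ℝ Set.univ f := by
  refine ⟨convex_univ, fun x _ y _ hxy a b ha hb hab => ?_⟩
  have h1 := strictConvexOn_exp.convexOn.2 (Set.mem_univ (x 1)) (Set.mem_univ (y 1)) ha.le hb.le hab
  simp only [f, PiLp.add_apply, PiLp.smul_apply, smul_eq_mul] at h1 ⊢
  obtain rfl : b = 1 - a := by linarith
  by_cases h : x 0 = y 0
  · have h2 : x 1 ≠ y 1 := fun h' => hxy (by ext i; fin_cases i <;> simp [h, h'])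
    have h3 := strictConvexOn_exp.2 (Set.mem_univ (x 1)) (Set.mem_univ (y 1)) h2 ha hb hab
    simp only [smul_eq_mul] at h3
    rw [h]; nlinarith
  · have : 0 < (x 0 - y 0) ^ 2 := by have := sub_ne_zero.2 h; positivity
    nlinarith [mul_pos (mul_pos ha hb) this]

theorem result : ∃ (n : ℕ) (f : EuclideanSpace ℝ (Fin n) → ℝ)
    (C : Set (EuclideanSpace ℝ (Fin n))),
    1 ≤ n ∧ ContDiff ℝ ⊤ f ∧ StrictConvexOn ℝ Set.univ f ∧ C.Nonempty ∧
    (∀ y, ∃! x, x ∈ C ∧ ∀ x' ∈ C, D f x y ≤ D f x' y) ∧ ¬ Convex ℝ C := by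
  refine ⟨2, f, C, by norm_num, by unfold f; fun_prop, f_strict, ⟨!₂[1, 0], by simp [C]⟩,
    fun y => ?_, fun h => ?_⟩
  · set b := Real.exp (y 1) with hb
    have hb0 : 0 < b := Real.exp_pos _
    set p := 1 - 2 * y 0
    set s := Real.sqrt (p ^ 2 + 8 * b)
    have hs : s ^ 2 = p ^ 2 + 8 * b := Real.sq_sqrt (by positivity)
    have hsp : p < s := Real.lt_sqrt_of_sq_lt (by linarith)
    set t := (s - p) / 4 with ht
    have ht0 : 0 < t := by linarith
    have hq : b = 2 * t ^ 2 + p * t := by rw [ht]; nlinarith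
    have key : ∀ x' ∈ C, D f !₂[t, Real.log t] y + (x' 0 - t) ^ 2 ≤ D f x' y := by
      rintro x' ⟨h0, h1⟩
      rw [D_eq, D_eq]
      simp only [f, h1, Matrix.cons_val_zero, Matrix.cons_val_one, Real.exp_log h0,
        Real.exp_log ht0, ← hb]
      have h2 := Real.log_le_sub_one_of_pos (div_pos h0 ht0)
      rw [Real.log_div h0.ne' ht0.ne'] at h2
      have h3 := mul_le_mul_of_nonneg_left h2 hb0.le
      have h4 : b * (x' 0 / t - 1) = (2 * t + p) * (x' 0 - t) := by rw [hq]; field_simp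
      rw [h4] at h3
      simp only [p] at h3
      nlinarith
    have hm : (!₂[t, Real.log t] : E2) ∈ C := by simp [C, ht0]
    refine ⟨!₂[t, Real.log t], ⟨hm, fun x' hx' => by nlinarith [key x' hx', sq_nonneg (x' 0 - t)]⟩,
      ?_⟩
    rintro x ⟨hx, hmin⟩
    have h1 := key x hx
    have h2 := hmin _ hm
    have h3 : x 0 = t := by nlinarith
    ext i; fin_cases i <;> simp [h3, hx.2]
  · have h1 : (!₂[1, 0] : E2) ∈ C := by simp [C]
    have h2 : (!₂[4, Real.log 4] : E2) ∈ C := by simp [C]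
    have h3 := (h h1 h2 (by norm_num : (0 : ℝ) ≤ 1 / 2) (by norm_num : (0 : ℝ) ≤ 1 / 2)
      (by norm_num)).2
    have h4 : Real.log 4 = 2 * Real.log 2 := by
      rw [show (4 : ℝ) = 2 ^ 2 by norm_num, Real.log_pow]; norm_num
    simp [h4] at h3
    have := Real.log_injOn_pos (by norm_num) (by norm_num) h3
    norm_num at this

end Pool.Agent.Results.MP_bd7f44_an.Curve
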